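import Pool.Agent.Lib.MP_b5021c_nt.IfaceG

/-!
# MP_b5021c_nt, row H2A (helper98): enlarging the domain, disjoint case
-/

namespace Pool.Agent.MP_b5021c_nt.H98

open Complex Metric Set

/-- Schwarz type lemma: `‖g z‖ ‖z‖ ≤ 1` in the unit disc implies `‖g z‖ ≤ 1`. -/
theorem schw {g : ℂ → ℂ} (hg : DifferentiableOn ℂ g (ball 0 1))
    (h : ∀ z : ℂ, ‖z‖ < 1 → ‖g z‖ * ‖z‖ ≤ 1) {z : ℂ} (hz : ‖z‖ < 1) : ‖g z‖ ≤ 1 := by
  have key : ∀ r : ℝ, ‖z‖ < r → r < 1 → ‖g z‖ * r ≤ 1 := by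
    intro r hzr hr1
    have hr0 : 0 < r := lt_of_le_of_lt (norm_nonneg _) hzr
    have hd : DiffContOnCl ℂ g (ball 0 r) := by
      refine DifferentiableOn.diffContOnCl ?_
      refine hg.mono ?_
      rw [closure_ball _ hr0.ne']
      exact closedBall_subset_ball hr1
    have hb : ‖g z‖ ≤ r⁻¹ := by
      refine Complex.norm_le_of_forall_mem_frontier_norm_le isBounded_ball hd ?_
        (subset_closure (by simpa using hzr))
      intro w hw
      rw [frontier_ball _ hr0.ne', mem_sphere_zero_iff_norm] at hw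
      have h2 := h w (by rw [hw]; exact hr1)
      rw [hw] at h2
      rw [← one_div, le_div_iff₀ hr0]
      exact h2
    calc ‖g z‖ * r ≤ r⁻¹ * r := mul_le_mul_of_nonneg_right hb hr0.le
      _ = 1 := inv_mul_cancel₀ hr0.ne'
  by_contra hcon
  push Not at hcon
  have h0 : 0 < ‖g z‖ := lt_trans one_pos hcon
  have h1 : (‖g z‖)⁻¹ < 1 := inv_lt_one_of_one_lt₀ hcon
  obtain ⟨r, hr, hr1⟩ := exists_between (max_lt hz h1)
  have h2 := key r (lt_of_le_of_lt (le_max_left _ _) hr) hr1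
  have h3 : (‖g z‖)⁻¹ < r := lt_of_le_of_lt (le_max_right _ _) hr
  have h4 : 1 < ‖g z‖ * r := by
    calc (1 : ℝ) = ‖g z‖ * (‖g z‖)⁻¹ := (mul_inv_cancel₀ h0.ne').symm
      _ < ‖g z‖ * r := mul_lt_mul_of_pos_left h3 h0
  linarith

/-- Row H2A. -/
theorem h2a : Pool.Agent.B5.H2aS := by
  intro V B h x y t hx hy ht
  have h0 : ∀ x y : ℂ, ‖x‖ < 1 → ‖y‖ < 1 → V * ((1 - x) * (1 - y)) - B ≠ 0 := by
    intro x y hx hy
    have := h x y 0 hx hy (by simp)
    simpa using this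
  have h1 : ∀ x y : ℂ, ‖x‖ < 1 → ‖y‖ < 1 →
      ‖B‖ * ‖x‖ * ‖y‖ ≤ ‖V * ((1 - x) * (1 - y)) - B‖ := by
    intro x y hx hy
    by_contra hcon
    push Not at hcon
    have hB : B * x * y ≠ 0 := by
      intro h2
      have h3 : ‖B‖ * ‖x‖ * ‖y‖ = 0 := by rw [← norm_mul, ← norm_mul, h2, norm_zero]
      rw [h3] at hcon
      exact absurd hcon (not_lt.2 (norm_nonneg _))
    refine h x y (-(V * ((1 - x) * (1 - y)) - B) / (B * x * y)) hx hy ?_ ?_
    · rw [norm_div, norm_neg, norm_mul, norm_mul]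
      rw [div_lt_one (by rw [← norm_mul, ← norm_mul]; exact norm_pos_iff.2 hB)]
      exact hcon
    · have hB1 : B ≠ 0 := fun h => hB (by rw [h]; ring)
      have hx1 : x ≠ 0 := fun h => hB (by rw [h]; ring)
      have hy1 : y ≠ 0 := fun h => hB (by rw [h]; ring)
      field_simp
      ring
  -- first variable
  have h2 : ∀ x y : ℂ, ‖x‖ < 1 → ‖y‖ < 1 →
      ‖B‖ * ‖y‖ ≤ ‖V * ((1 - x) * (1 - y)) - B‖ := by
    intro x y hx hy
    have h3 := schw (g := fun x => B * y / (V * ((1 - x) * (1 - y)) - B)) ?_ ?_ hx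
    · have h4 : 0 < ‖V * ((1 - x) * (1 - y)) - B‖ := norm_pos_iff.2 (h0 x y hx hy)
      have h5 : ‖B * y‖ / ‖V * ((1 - x) * (1 - y)) - B‖ ≤ 1 := by
        rw [← norm_div]
        exact h3
      rw [div_le_one h4, norm_mul] at h5
      exact h5
    · intro w hw
      have hw' : ‖w‖ < 1 := by simpa using hw
      refine DifferentiableAt.differentiableWithinAt ?_
      refine DifferentiableAt.div (by fun_prop) (by fun_prop) (h0 w y hw' hy)
    · intro w hw
      have h4 : 0 < ‖V * ((1 - w) * (1 - y)) - B‖ := norm_pos_iff.2 (h0 w y hw hy)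
      have h5 := h1 w y hw hy
      rw [norm_div, div_mul_eq_mul_div, div_le_one h4, norm_mul]
      linarith
  have h3 : ∀ x y : ℂ, ‖x‖ < 1 → ‖y‖ < 1 → ‖B‖ ≤ ‖V * ((1 - x) * (1 - y)) - B‖ := by
    intro x y hx hy
    have h3 := schw (g := fun y => B / (V * ((1 - x) * (1 - y)) - B)) ?_ ?_ hy
    · have h4 : 0 < ‖V * ((1 - x) * (1 - y)) - B‖ := norm_pos_iff.2 (h0 x y hx hy)
      have h5 : ‖B‖ / ‖V * ((1 - x) * (1 - y)) - B‖ ≤ 1 := by
        rw [← norm_div]
        exact h3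
      rw [div_le_one h4] at h5
      exact h5
    · intro w hw
      have hw' : ‖w‖ < 1 := by simpa using hw
      refine DifferentiableAt.differentiableWithinAt ?_
      refine DifferentiableAt.div (by fun_prop) (by fun_prop) (h0 x w hx hw')
    · intro w hw
      have h4 : 0 < ‖V * ((1 - x) * (1 - w)) - B‖ := norm_pos_iff.2 (h0 x w hx hw)
      have h5 := h2 x w hx hw
      rw [norm_div, div_mul_eq_mul_div, div_le_one h4]
      exact h5
  intro h4
  have h5 : V * ((1 - x) * (1 - y)) - B = -(B * t) := by linear_combination h4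
  have h6 := h3 x y hx hy
  rw [h5, norm_neg, norm_mul] at h6
  by_cases hB : B = 0
  · apply h0 x y hx hy
    rw [h5, hB]
    ring
  · have h7 : 0 < ‖B‖ := norm_pos_iff.2 hB
    nlinarith

end Pool.Agent.MP_b5021c_nt.H98
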